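import Pool.Agent.J6H4.SC.Loops

set_option autoImplicit false

/-!
# The number of closed curves of a state and the Seifert graph

`comps G F` is the number of the connected components of the graph whose vertices are the Seifert
circles and whose edges are the crossings in `F`.  The state in which exactly the crossings in `F`
are smoothed in the unoriented way has at most `|F| + 2 comps G F - s` closed curves, `s` the number
of the Seifert circles.
-/

namespace Pool.Agent.J6H4.SC

open Pool.Agent.H832R2.JR Function Finset

variable {N : ℕ}

/-- joined by a piece of a Seifert circle, or at the same crossing of `F` -/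
def Linked (G : GaussWord N) (F : Finset (Fin N)) (x y : Half N) : Prop :=
  Joined G (fun _ => true) x y ∨ (x.1.1 = y.1.1 ∧ x.1.1 ∈ F)

/-- the number of the connected components of the graph whose vertices are the Seifert circles and
whose edges are the crossings in `F` -/
noncomputable def comps (G : GaussWord N) (F : Finset (Fin N)) : ℕ := Nat.card (Quot (Linked G F))

theorem merge (G : GaussWord N) (t : Fin N → Fin 3) (c : Fin N)
    (h : Quot.mk (gen (arcFun G) (smooth (update t c 1))) ((c, false), false) ≠
      Quot.mk (gen (arcFun G) (smooth (update t c 1))) ((c, true), false)) :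
    L G (update t c 2) + 1 ≤ L G (update t c 1) := by
  classical
  set r2 := gen (arcFun G) (smooth (update t c 2)) with hr2
  set r1 := gen (arcFun G) (smooth (update t c 1)) with hr1
  set r := gen (arcFun G) (smoothOff t c) with hr
  have hoff : ∀ (k : Fin 3) (x y : Half N), r x y →
      Quot.mk (gen (arcFun G) (smooth (update t c k))) x =
        Quot.mk (gen (arcFun G) (smooth (update t c k))) y := by
    rintro k x y (rfl | rfl)
    · exact Quot.sound (Or.inl rfl)
    · unfold smoothOff
      split_ifs with h
      · rfl
      · refine Quot.sound (Or.inr ?_)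
        unfold smooth
        rw [update_of_ne h]
  have hl1 : ∀ x y : Half N, Quot.mk r x = Quot.mk r y → Quot.mk r1 x = Quot.mk r1 y := by
    intro x y h
    exact congrArg (Quot.lift (Quot.mk r1) (hoff 1)) h
  have hl2 : ∀ x y : Half N, Quot.mk r x = Quot.mk r y → Quot.mk r2 x = Quot.mk r2 y := by
    intro x y h
    exact congrArg (Quot.lift (Quot.mk r2) (hoff 2)) h
  have s1 : ∀ b e, Quot.mk r1 ((c, b), e) = Quot.mk r1 ((c, !b), !e) := by
    intro b e
    exact Quot.sound (Or.inr (by simp [smooth]))
  have s2 : ∀ b e, Quot.mk r2 ((c, b), e) = Quot.mk r2 ((c, !b), e) := by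
    intro b e
    exact Quot.sound (Or.inr (by simp [smooth]))
  let α : Equiv.Perm (Half N) := (Function.Involutive.toPerm (arcFun G) (arcFun_inv G))
  let β : Equiv.Perm (Half N) := (Function.Involutive.toPerm (smoothOff t c) (smoothOff_inv t c))
  have path : ∀ a : Half N, a.1.1 = c → ∃ b : Half N, b ≠ a ∧ b.1.1 = c ∧
      Quot.mk r b = Quot.mk r a := by
    intro a ha
    obtain ⟨b, hb1, hb2, hb3, -⟩ := path_lemma α β (arcFun_inv G) (smoothOff_inv t c)
      (arcFun_ne G) a ((smoothOff_fixed t c a).2 ha)
    exact ⟨b, hb1, (smoothOff_fixed t c b).1 hb2, hb3⟩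
  have e1 : Quot.mk r ((c, false), false) = Quot.mk r ((c, true), true) := by
    obtain ⟨⟨⟨d, b⟩, e⟩, hb1, hb2, hb3⟩ := path ((c, true), true) rfl
    simp only at hb2
    subst hb2
    cases b <;> cases e
    · exact hb3
    · exfalso
      apply h
      rw [s1 false false, s1 true false]
      exact (hl1 _ _ hb3).symm
    · exfalso
      apply h
      rw [s1 false false]
      exact (hl1 _ _ hb3).symm
    · exact absurd rfl hb1
  have e2 : Quot.mk r ((c, false), true) = Quot.mk r ((c, true), false) := by
    obtain ⟨⟨⟨d, b⟩, e⟩, hb1, hb2, hb3⟩ := path ((c, true), false) rfl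
    simp only at hb2
    subst hb2
    cases b <;> cases e
    · exact absurd (hl1 _ _ hb3) h
    · exact hb3
    · exact absurd rfl hb1
    · exfalso
      apply h
      rw [s1 false false]
      exact hl1 _ _ hb3
  have hmap : ∀ x y : Half N, addPair r1 ((c, false), false) ((c, true), false) x y →
      Quot.mk r2 x = Quot.mk r2 y := by
    rintro x y ((rfl | rfl) | ⟨rfl, rfl⟩)
    · exact Quot.sound (Or.inl rfl)
    · rcases x with ⟨⟨d, b⟩, e⟩
      by_cases hd : d = c
      · subst hd
        have h7 : smooth (update t d 1) ((d, b), e) = ((d, !b), !e) := by simp [smooth]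
        rw [h7]
        cases b <;> cases e
        · exact hl2 _ _ e1
        · exact hl2 _ _ e2
        · exact (hl2 _ _ e2).symm
        · exact (hl2 _ _ e1).symm
      · refine Quot.sound (Or.inr ?_)
        unfold smooth
        simp only [update_of_ne hd]
    · exact s2 false false
  have hfin : Finite (Quot (addPair r1 ((c, false), false) ((c, true), false))) := Quot.finite _
  have h8 : L G (update t c 2) ≤
      Nat.card (Quot (addPair r1 ((c, false), false) ((c, true), false))) := by
    refine Nat.card_le_card_of_surjective (Quot.lift (Quot.mk r2) hmap) ?_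
    rintro ⟨x⟩
    exact ⟨Quot.mk _ x, rfl⟩
  have h9 := card_addPair_diff r1 ((c, false), false) ((c, true), false) h
  have h10 : L G (update t c 1) = Nat.card (Quot r1) := rfl
  omega

theorem linked_mono (G : GaussWord N) {F F' : Finset (Fin N)} (h : F ⊆ F') {x y : Half N}
    (hxy : Linked G F x y) : Linked G F' x y := by
  rcases hxy with h1 | ⟨h1, h2⟩
  · exact Or.inl h1
  · exact Or.inr ⟨h1, h h2⟩

theorem comps_insert (G : GaussWord N) (F : Finset (Fin N)) (c : Fin N) :
    comps G (insert c F) =
      Nat.card (Quot (addPair (Linked G F) ((c, false), false) ((c, true), false))) := by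
  classical
  set q := addPair (Linked G F) ((c, false), false) ((c, true), false) with hq
  have hJ : ∀ b, Quot.mk q ((c, b), false) = Quot.mk q ((c, !b), true) := by
    intro b
    exact Quot.sound (Or.inl (Or.inl (Or.inr (Or.inl ⟨c, b, rfl, rfl, rfl⟩))))
  have hxy : Quot.mk q ((c, false), false) = Quot.mk q ((c, true), false) :=
    Quot.sound (Or.inr ⟨rfl, rfl⟩)
  have hall : ∀ b e, Quot.mk q ((c, b), e) = Quot.mk q ((c, false), false) := by
    intro b e
    cases b <;> cases e
    · rfl
    · rw [hxy]; exact (hJ true).symm
    · exact hxy.symm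
    · exact (hJ false).symm
  refine card_quot_congr _ _ ?_ ?_
  · rintro x y (h1 | ⟨h1, h2⟩)
    · exact Quot.sound (Or.inl (Or.inl h1))
    · rw [mem_insert] at h2
      rcases h2 with h2 | h2
      · rcases x with ⟨⟨d, b⟩, e⟩
        rcases y with ⟨⟨d', b'⟩, e'⟩
        simp only at h1 h2
        subst h1
        subst h2
        rw [hall b e, hall b' e']
      · exact Quot.sound (Or.inl (Or.inr ⟨h1, h2⟩))
  · rintro x y (h1 | ⟨rfl, rfl⟩)
    · exact Quot.sound (linked_mono G (subset_insert c F) h1)
    · exact Quot.sound (Or.inr ⟨rfl, mem_insert_self c F⟩)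

theorem comps_insert_le (G : GaussWord N) (F : Finset (Fin N)) (c : Fin N) :
    comps G (insert c F) ≤ comps G F ∧ comps G F ≤ comps G (insert c F) + 1 := by
  rw [comps_insert]
  by_cases h : Quot.mk (Linked G F) ((c, false), false) = Quot.mk (Linked G F) ((c, true), false)
  · rw [card_addPair_same _ _ _ h]
    exact ⟨le_rfl, Nat.le_succ _⟩
  · have := card_addPair_diff _ _ _ h
    unfold comps
    omega

theorem comps_union (G : GaussWord N) (A D : Finset (Fin N)) :
    comps G (A ∪ D) ≤ comps G A ∧ comps G A ≤ comps G (A ∪ D) + D.card := by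
  classical
  induction D using Finset.induction_on with
  | empty => simp
  | insert c D hc ih =>
    rw [card_insert_of_notMem hc, union_insert]
    have := comps_insert_le G (A ∪ D) c
    omega

theorem comps_subset (G : GaussWord N) {A B : Finset (Fin N)} (h : A ⊆ B) :
    comps G B ≤ comps G A ∧ comps G A + A.card ≤ comps G B + B.card := by
  classical
  have h1 := comps_union G A (B \ A)
  rw [union_sdiff_of_subset h, card_sdiff_of_subset h] at h1
  have h2 := card_le_card h
  omega

theorem linked_of_gen (G : GaussWord N) (F : Finset (Fin N)) {x y : Half N}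
    (h : gen (arcFun G) (smooth (tU F)) x y) :
    Quot.mk (Linked G F) x = Quot.mk (Linked G F) y := by
  rcases x with ⟨⟨d, b⟩, e⟩
  rcases h with rfl | rfl
  · cases e
    · have h5 : Linked G F (arcFun G ((d, b), false)) ((d, b), false) :=
        Or.inl (Or.inl ⟨(next G).symm (d, b), rfl, by simp⟩)
      exact (Quot.sound h5).symm
    · exact Quot.sound (Or.inl (Or.inl ⟨(d, b), rfl, rfl⟩))
  · by_cases hd : d ∈ F
    · exact Quot.sound (Or.inr ⟨(smooth_fst (tU F) _).symm, hd⟩)
    · have h7 : smooth (tU F) ((d, b), e) = ((d, !b), !e) := by simp [smooth, tU, hd]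
      rw [h7]
      cases e
      · exact Quot.sound (Or.inl (Or.inr (Or.inl ⟨d, b, rfl, rfl, rfl⟩)))
      · have h5 : Linked G F ((d, !b), !true) ((d, b), true) :=
          Or.inl (Or.inr (Or.inl ⟨d, !b, rfl, rfl, by simp⟩))
        exact (Quot.sound h5).symm

theorem comps_empty (G : GaussWord N) : comps G ∅ = loops G fun _ => true := by
  refine card_quot_congr _ _ ?_ ?_
  · rintro x y (h1 | ⟨_, h2⟩)
    · exact Quot.sound h1
    · exact absurd h2 (by simp)
  · intro x y h1
    exact Quot.sound (Or.inl h1)

/-- **The number of the closed curves of a state.** -/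
theorem loops_comps (G : GaussWord N) (F : Finset (Fin N)) :
    L G (tU F) + comps G ∅ ≤ F.card + 2 * comps G F := by
  classical
  induction F using Finset.induction_on with
  | empty =>
    rw [comps_empty, loops_true]
    simp
    omega
  | insert c F hc ih =>
    have e1 : tU F = update (tU F) c 1 := by
      rw [eq_comm, update_eq_self_iff]
      simp [tU, hc]
    have e2 : tU (insert c F) = update (tU F) c 2 := by
      funext d
      by_cases hd : d = c
      · subst hd; simp [tU]
      · rw [update_of_ne hd]; simp [tU, hd]
    rw [card_insert_of_notMem hc]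
    by_cases h : Quot.mk (Linked G F) ((c, false), false) =
        Quot.mk (Linked G F) ((c, true), false)
    · have h1 : comps G (insert c F) = comps G F := by
        rw [comps_insert, card_addPair_same _ _ _ h]
        rfl
      obtain ⟨n, hn⟩ := three_term G (tU F) c
      rw [← e1, ← e2] at hn
      omega
    · have h1 : comps G (insert c F) + 1 = comps G F := by
        rw [comps_insert, card_addPair_diff _ _ _ h]
        rfl
      have h2 : Quot.mk (gen (arcFun G) (smooth (update (tU F) c 1))) ((c, false), false) ≠
          Quot.mk (gen (arcFun G) (smooth (update (tU F) c 1))) ((c, true), false) := by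
        rw [← e1]
        intro h3
        exact h (congrArg (Quot.lift (Quot.mk (Linked G F)) fun _ _ h4 => linked_of_gen G F h4) h3)
      have h3 := merge G (tU F) c h2
      rw [← e1, ← e2] at h3
      omega

theorem loops_comps' (G : GaussWord N) (s : Fin N → Bool) :
    loops G s + loops G (fun _ => true) ≤ (univ.filter fun c => s c = false).card +
      2 * comps G (univ.filter fun c => s c = false) := by
  rw [loops_eq G s, tri_eq, ← comps_empty]
  exact loops_comps G _

end Pool.Agent.J6H4.SC
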