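import Pool.Agent.J6H4.SC.Comps

set_option autoImplicit false

/-!
# The degrees of the normalised bracket

The support of `fPoly G w` in terms of the number of the Seifert circles and of the numbers of the
positive and of the negative crossings.
-/

namespace Pool.Agent.J6H4.SC

open Pool.Agent.H832R2.JR Function Finset LaurentPolynomial

variable {N : ℕ}

/-- the support is contained in `[lo, hi]` -/
def SIn (f : ℤ[T;T⁻¹]) (lo hi : ℤ) : Prop := ∀ j, f.coeff j ≠ 0 → lo ≤ j ∧ j ≤ hi

theorem SIn.mono {f : ℤ[T;T⁻¹]} {lo hi lo' hi' : ℤ} (h : SIn f lo hi) (h1 : lo' ≤ lo)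
    (h2 : hi ≤ hi') : SIn f lo' hi' := fun j hj => ⟨h1.trans (h j hj).1, (h j hj).2.trans h2⟩

theorem SIn.zero {lo hi : ℤ} : SIn 0 lo hi := fun j hj => absurd rfl hj

theorem SIn.add {f g : ℤ[T;T⁻¹]} {lo hi : ℤ} (hf : SIn f lo hi) (hg : SIn g lo hi) :
    SIn (f + g) lo hi := by
  intro j hj
  by_cases h : f.coeff j = 0
  · apply hg j
    intro h'
    apply hj
    rw [AddMonoidAlgebra.coeff_add, Finsupp.add_apply, h, h', add_zero]
  · exact hf j h

theorem SIn.sum {ι : Type} (s : Finset ι) (f : ι → ℤ[T;T⁻¹]) {lo hi : ℤ}
    (h : ∀ i ∈ s, SIn (f i) lo hi) : SIn (∑ i ∈ s, f i) lo hi := by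
  classical
  induction s using Finset.induction_on with
  | empty => simpa using SIn.zero
  | insert a s ha ih =>
    rw [Finset.sum_insert ha]
    exact (h a (Finset.mem_insert_self _ _)).add
      (ih (fun i hi => h i (Finset.mem_insert_of_mem hi)))

theorem SIn.mul {f g : ℤ[T;T⁻¹]} {lo hi lo' hi' : ℤ} (hf : SIn f lo hi) (hg : SIn g lo' hi') :
    SIn (f * g) (lo + lo') (hi + hi') := by
  classical
  intro j hj
  have h1 : j ∈ (f * g).coeff.support := Finsupp.mem_support_iff.mpr hj
  have h2 := AddMonoidAlgebra.support_coeff_mul_subset f g h1
  rw [Finset.mem_add] at h2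
  obtain ⟨a, ha, b, hb, rfl⟩ := h2
  have k1 := hf a (Finsupp.mem_support_iff.mp ha)
  have k2 := hg b (Finsupp.mem_support_iff.mp hb)
  exact ⟨by omega, by omega⟩

theorem SIn.C (c : ℤ) : SIn (C c) 0 0 := by
  intro j hj
  rw [C_apply] at hj
  by_cases h : j = 0
  · subst h; exact ⟨le_rfl, le_rfl⟩
  · rw [if_neg h] at hj; exact absurd rfl hj

theorem SIn.one : SIn 1 0 0 := by
  have := SIn.C 1
  rwa [map_one] at this

theorem SIn.T (n : ℤ) : SIn (T n) n n := by
  intro j hj
  rw [T_apply] at hj
  by_cases h : n = j
  · subst h; exact ⟨le_rfl, le_rfl⟩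
  · rw [if_neg h] at hj; exact absurd rfl hj

theorem SIn.pow {f : ℤ[T;T⁻¹]} {d : ℤ} (hf : SIn f (-d) d) (n : ℕ) :
    SIn (f ^ n) (-(n * d)) (n * d) := by
  induction n with
  | zero => simpa using SIn.one
  | succ n ih =>
    rw [pow_succ]
    refine (ih.mul hf).mono ?_ ?_ <;> push_cast <;> linarith

theorem SIn.neg {f : ℤ[T;T⁻¹]} {lo hi : ℤ} (hf : SIn f lo hi) : SIn (-f) lo hi := by
  intro j hj
  apply hf j
  intro h
  apply hj
  rw [AddMonoidAlgebra.coeff_neg, Finsupp.neg_apply, h, neg_zero]

theorem SIn_d : SIn (-T 2 - T (-2) : ℤ[T;T⁻¹]) (-2) 2 := by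
  rw [sub_eq_add_neg]
  exact ((SIn.T 2).neg.mono (by norm_num) (by norm_num)).add
    ((SIn.T (-2)).neg.mono (by norm_num) (by norm_num))

/-- the number of positive crossings -/
def pos (w : Fin N → Bool) : ℕ := (univ.filter fun c => w c = true).card

/-- the number of negative crossings -/
def neg (w : Fin N → Bool) : ℕ := (univ.filter fun c => w c = false).card

theorem pos_add_neg (w : Fin N → Bool) : pos w + neg w = N := by
  unfold pos neg
  have h := Finset.card_filter_add_card_filter_not (s := (univ : Finset (Fin N)))
    (fun c => w c = true)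
  rw [card_univ, Fintype.card_fin] at h
  simpa using h

theorem sum_sgn (w : Fin N → Bool) : ∑ c, sgn (w c) = (pos w : ℤ) - neg w := by
  unfold pos neg
  rw [Finset.card_filter, Finset.card_filter]
  push_cast
  rw [← Finset.sum_sub_distrib]
  refine Finset.sum_congr rfl fun c _ => ?_
  cases h : w c <;> simp [sgn]

/-- the number of the positive crossings which are smoothed in the unoriented way -/
def fp (w s : Fin N → Bool) : ℕ := (univ.filter fun c => w c = true ∧ s c = false).card

/-- the number of the negative crossings which are smoothed in the unoriented way -/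
def fn (w s : Fin N → Bool) : ℕ := (univ.filter fun c => w c = false ∧ s c = false).card

theorem weight_eq (w s : Fin N → Bool) :
    weight w s = (pos w : ℤ) - neg w - 2 * fp w s + 2 * fn w s := by
  rw [← sum_sgn]
  unfold weight fp fn
  rw [Finset.card_filter, Finset.card_filter]
  push_cast
  rw [Finset.mul_sum, Finset.mul_sum, ← Finset.sum_sub_distrib, ← Finset.sum_add_distrib]
  refine Finset.sum_congr rfl fun c _ => ?_
  cases h : w c <;> cases h' : s c <;> simp [sgn]

theorem fp_le (w s : Fin N → Bool) : fp w s ≤ pos w :=
  Finset.card_le_card fun c hc => by simp only [mem_filter, mem_univ, true_and] at hc ⊢; exact hc.1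

theorem fn_le (w s : Fin N → Bool) : fn w s ≤ neg w :=
  Finset.card_le_card fun c hc => by simp only [mem_filter, mem_univ, true_and] at hc ⊢; exact hc.1

theorem fp_add_fn (w s : Fin N → Bool) :
    fp w s + fn w s = (univ.filter fun c => s c = false).card := by
  unfold fp fn
  rw [Finset.card_filter, Finset.card_filter, Finset.card_filter, ← Finset.sum_add_distrib]
  refine Finset.sum_congr rfl fun c _ => ?_
  cases h : w c <;> cases h' : s c <;> simp

/-- the negative crossings -/
def negs (w : Fin N → Bool) : Finset (Fin N) := univ.filter fun c => w c = false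

/-- the positive crossings -/
def poss (w : Fin N → Bool) : Finset (Fin N) := univ.filter fun c => w c = true

/-- the loss: `0` without crossings of the sign considered, otherwise at least `4` times the rank
`r`, at least `2` -/
def loss (m r : ℕ) : ℤ := if m = 0 then 0 else max (4 * (r : ℤ)) 2

theorem state_bound (G : GaussWord N) (w s : Fin N → Bool) (e : Bool) :
    (loops G s : ℤ) + loops G (fun _ => true) + 2 * (univ.filter fun c => w c = e).card ≤
      (univ.filter fun c => s c = false).card +
      2 * (comps G (univ.filter fun c => w c = e ∧ s c = false)) +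
      2 * (univ.filter fun c => w c = e).card := by
  have h1 := loops_comps' G s
  have h2 := (comps_subset G (A := univ.filter fun c => w c = e ∧ s c = false)
    (B := univ.filter fun c => s c = false) (fun c hc => by
      simp only [mem_filter, mem_univ, true_and] at hc ⊢
      exact hc.2)).1
  omega

/-- the support of the normalised bracket -/
theorem support (G : GaussWord N) (hN : 0 < N) (w : Fin N → Bool) (rp rn : ℕ)
    (hrp : comps G (poss w) + rp = loops G fun _ => true)
    (hrn : comps G (negs w) + rn = loops G fun _ => true) :
    SIn (fPoly G w)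
      (2 * (N + 1 - loops G fun _ => true) - 8 * pos w + loss (pos w) rp)
      (-(2 * (N + 1 - loops G fun _ => true)) + 8 * neg w - loss (neg w) rn) := by
  classical
  have hL : ∀ s, 1 ≤ loops G s := fun s => by rw [loops_eq]; exact one_le_L G _ ⟨0, hN⟩
  have hpn := pos_add_neg w
  have hwr : writhe w = (pos w : ℤ) - neg w := sum_sgn w
  have hsg : SIn (if Even (writhe w) then (1 : ℤ[T;T⁻¹]) else -1) 0 0 := by
    split_ifs
    · exact SIn.one
    · exact SIn.one.neg
  have hb : SIn (bracket G w)
      (3 * writhe w + (2 * (N + 1 - loops G fun _ => true) - 8 * pos w + loss (pos w) rp))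
      (3 * writhe w + (-(2 * (N + 1 - loops G fun _ => true)) + 8 * neg w - loss (neg w) rn)) := by
    unfold bracket
    refine SIn.sum _ _ fun s _ => ?_
    have h1 : SIn (T (weight w s) * (-T 2 - T (-2)) ^ (loops G s - 1) : ℤ[T;T⁻¹])
        (weight w s - ((loops G s - 1 : ℕ) : ℤ) * 2)
        (weight w s + ((loops G s - 1 : ℕ) : ℤ) * 2) := by
      have := (SIn.T (weight w s)).mul (SIn_d.pow (loops G s - 1))
      exact this.mono (by linarith) le_rfl
    have h2 := weight_eq w s
    have h3 := fp_le w s
    have h4 := fn_le w s
    have h5 := fp_add_fn w s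
    have h6 := hL s
    have h7 := hL (fun _ => true)
    have h8 : ((loops G s - 1 : ℕ) : ℤ) = (loops G s : ℤ) - 1 := by
      rw [Nat.cast_sub h6]; rfl
    rw [h8] at h1
    have cp := state_bound G w s true
    have cn := state_bound G w s false
    have dp := (comps_subset G (A := univ.filter fun c => w c = true ∧ s c = false)
      (B := poss w) (fun c hc => by
        simp only [poss, mem_filter, mem_univ, true_and] at hc ⊢
        exact hc.1)).2
    have dn := (comps_subset G (A := univ.filter fun c => w c = false ∧ s c = false)
      (B := negs w) (fun c hc => by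
        simp only [negs, mem_filter, mem_univ, true_and] at hc ⊢
        exact hc.1)).2
    have ep : (poss w).card = pos w := rfl
    have en : (negs w).card = neg w := rfl
    have fpe : (univ.filter fun c => w c = true ∧ s c = false).card = fp w s := rfl
    have fne : (univ.filter fun c => w c = false ∧ s c = false).card = fn w s := rfl
    rw [ep, fpe] at dp
    rw [en, fne] at dn
    have bnd : (univ.filter fun c => s c = false).Nonempty →
        loops G s + 1 ≤ loops G (fun _ => true) + (fp w s + fn w s) := by
      intro hne
      rw [h5]
      exact loops_bound G s hne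
    have emp : fp w s + fn w s = 0 → loops G s = loops G fun _ => true := by
      intro h0
      rw [h5, card_eq_zero] at h0
      have hst : s = fun _ => true := by
        funext c
        by_contra hcon
        have : c ∈ (univ.filter fun c => s c = false) := by
          simp only [mem_filter, mem_univ, true_and]
          simpa using hcon
        rw [h0] at this
        exact absurd this (by simp)
      rw [hst]
    have bnd' : 0 < fp w s + fn w s →
        loops G s + 1 ≤ loops G (fun _ => true) + (fp w s + fn w s) := by
      intro h0
      rw [h5] at h0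
      exact bnd (card_pos.1 h0)
    rw [← h5] at cp cn
    clear bnd
    refine h1.mono ?_ ?_
    · rw [hwr]
      unfold loss
      split_ifs with h0
      · rcases Nat.eq_zero_or_pos (fp w s + fn w s) with h | h
        · have := emp h
          omega
        · have := bnd' h
          omega
      · rcases le_total (4 * (rp : ℤ)) 2 with hm | hm
        · rw [max_eq_right hm]
          rcases Nat.eq_zero_or_pos (fp w s + fn w s) with h | h
          · have := emp h
            omega
          · have := bnd' h
            omega
        · rw [max_eq_left hm]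
          push_cast at cp
          omega
    · rw [hwr]
      unfold loss
      split_ifs with h0
      · rcases Nat.eq_zero_or_pos (fp w s + fn w s) with h | h
        · have := emp h
          omega
        · have := bnd' h
          omega
      · rcases le_total (4 * (rn : ℤ)) 2 with hm | hm
        · rw [max_eq_right hm]
          rcases Nat.eq_zero_or_pos (fp w s + fn w s) with h | h
          · have := emp h
            omega
          · have := bnd' h
            omega
        · rw [max_eq_left hm]
          push_cast at cn
          omega
  unfold fPoly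
  have := (hsg.mul (SIn.T (-3 * writhe w))).mul hb
  exact this.mono (by linarith) (by linarith)

end Pool.Agent.J6H4.SC
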