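import Pool.Agent.J6H4.SC.ExTab

set_option autoImplicit false

/-!
# The diagram of `ExTab` has unit Jones polynomial and genus three
-/

namespace Pool.Agent.J6H4.SC.Ex

open Pool.Agent.H832R2.JR Function Finset LaurentPolynomial

theorem dg_lt (V n : ℕ) : dg V n < 32 := by
  unfold dg
  exact lt_of_le_of_lt Nat.and_le_right (by norm_num)

theorem sm_ok (m n : ℕ) (hn : n < 32) :
    smooth (tri (B m)) (dec n) = dec (sm m n) ∧ sm m n < 32 := by
  have h := sm_aux ⟨n, hn⟩ (m.testBit (n / 4))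
  simp only at h
  have e1 : smooth (tri (B m)) (dec n) =
      smooth (fun _ => if m.testBit (n / 4) then 1 else 2) (dec n) := by
    have h1 : tri (B m) (dec n).1.1 = if m.testBit (n / 4) then 1 else 2 := by
      unfold tri B dec
      have h9 : n / 4 % 8 = n / 4 := Nat.mod_eq_of_lt (by omega)
      simp only [h9]
    unfold smooth
    rw [h1]
  have e2 : sm m n = if m.testBit (n / 4) then n ^^^ 3 else n ^^^ 2 := rfl
  rw [e1, e2]
  exact h

theorem L_tab (p : ℕ × ℕ × ℕ × ℕ) (hp : Ok p) : L G (tri (B p.1)) = p.2.2.2 := by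
  classical
  obtain ⟨m, R, D, c⟩ := p
  obtain ⟨h1, h2⟩ := hp
  simp only at h1 h2 ⊢
  set r := gen (arcFun G) (smooth (tri (B m))) with hr
  have ha : ∀ n, n < 32 → Quot.mk r (dec n) = Quot.mk r (dec (arc n)) := by
    intro n hn
    have := (arc_ok ⟨n, hn⟩).1
    simp only at this
    rw [← this]
    exact Quot.sound (Or.inl rfl)
  have hs : ∀ n, n < 32 → Quot.mk r (dec n) = Quot.mk r (dec (sm m n)) := by
    intro n hn
    rw [← (sm_ok m n hn).1]
    exact Quot.sound (Or.inr rfl)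
  have conn : ∀ d n, n < 32 → dg D n ≤ d → Quot.mk r (dec n) = Quot.mk r (dec (dg R n)) := by
    intro d
    induction d with
    | zero =>
      intro n hn hd
      rw [(h1 n hn).2.2.1 (by omega)]
    | succ d ih =>
      intro n hn hd
      by_cases h0 : dg D n = 0
      · rw [(h1 n hn).2.2.1 h0]
      · rcases (h1 n hn).2.2.2 h0 with h3 | h3
        · rw [hs n hn, ih (sm m n) (sm_ok m n hn).2 (by omega), (h1 n hn).1]
        · rw [ha n hn, ih (arc n) (arc_ok ⟨n, hn⟩).2 (by omega), (h1 n hn).2.1]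
  have hconn : ∀ n, n < 32 → Quot.mk r (dec n) = Quot.mk r (dec (dg R n)) :=
    fun n hn => conn (dg D n) n hn le_rfl
  have hlift : ∀ x y : Half 8, r x y → dg R (enc x) = dg R (enc y) := by
    intro x y hxy
    obtain ⟨hx1, hx2⟩ := dec_enc x
    rcases hxy with rfl | rfl
    · have h3 := (arc_ok ⟨enc x, hx2⟩)
      simp only [hx1] at h3
      rw [h3.1]
      have h4 := enc_dec ⟨arc (enc x), h3.2⟩
      simp only at h4
      rw [h4, (h1 _ hx2).2.1]
    · have h3 := sm_ok m (enc x) hx2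
      rw [hx1] at h3
      rw [h3.1]
      have h4 := enc_dec ⟨sm m (enc x), h3.2⟩
      simp only at h4
      rw [h4, (h1 _ hx2).1]
  let φ : Quot r → ℕ := Quot.lift (fun x => dg R (enc x)) hlift
  have hφ : ∀ n, n < 32 → φ (Quot.mk r (dec n)) = dg R n := by
    intro n hn
    show dg R (enc (dec n)) = dg R n
    have := enc_dec ⟨n, hn⟩
    simp only at this
    rw [this]
  have hall : ∀ q : Quot r, ∃ n, n < 32 ∧ q = Quot.mk r (dec n) := by
    rintro ⟨x⟩
    obtain ⟨hx1, hx2⟩ := dec_enc x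
    exact ⟨enc x, hx2, by rw [hx1]⟩
  have hmem : ∀ q : Quot r, φ q ∈ (range 32).filter fun n => dg R n = n := by
    intro q
    obtain ⟨n, hn, rfl⟩ := hall q
    rw [hφ n hn, mem_filter, mem_range]
    refine ⟨dg_lt R n, ?_⟩
    rw [← hφ (dg R n) (dg_lt R n), ← hconn n hn, hφ n hn]
  have hbij : Function.Bijective (fun q : Quot r =>
      (⟨φ q, hmem q⟩ : {n // n ∈ (range 32).filter fun n => dg R n = n})) := by
    constructor
    · intro a b hab
      obtain ⟨n, hn, rfl⟩ := hall a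
      obtain ⟨n', hn', rfl⟩ := hall b
      have h5 : φ (Quot.mk r (dec n)) = φ (Quot.mk r (dec n')) := congrArg Subtype.val hab
      rw [hφ n hn, hφ n' hn'] at h5
      rw [hconn n hn, hconn n' hn', h5]
    · rintro ⟨n, hn⟩
      rw [mem_filter, mem_range] at hn
      exact ⟨Quot.mk r (dec n), Subtype.ext ((hφ n hn.1).trans hn.2)⟩
  have h6 : Nat.card (Quot r) =
      Nat.card {n // n ∈ (range 32).filter fun n => dg R n = n} :=
    Nat.card_congr (Equiv.ofBijective _ hbij)
  have h7 : L G (tri (B m)) = Nat.card (Quot r) := rfl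
  rw [h7, h6, h2, Nat.card_eq_fintype_card, Fintype.card_coe]

/-- the weight of the state `m` (the mask of the signs is `231`) -/
def wt (m : ℕ) : ℤ := ((List.range 8).map fun c =>
  (if m.testBit c = (231 : ℕ).testBit c then (1 : ℤ) else -1)).sum

theorem wt_ok : ∀ m : Fin 256, weight w (B m) = wt m := by decide +kernel

/-- the coefficient of `T a * (-T 2 - T (-2)) ^ k` at `j` -/
def coef : ℕ → ℤ → ℤ → ℤ
  | 0, a, j => if a = j then 1 else 0
  | k + 1, a, j => -coef k (a + 2) j - coef k (a - 2) j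

theorem coef_ok (k : ℕ) : ∀ a j : ℤ,
    (T a * (-T 2 - T (-2)) ^ k : ℤ[T;T⁻¹]).coeff j = coef k a j := by
  induction k with
  | zero =>
    intro a j
    rw [pow_zero, mul_one, T_apply]
    rfl
  | succ k ih =>
    intro a j
    have e : (T a * (-T 2 - T (-2)) ^ (k + 1) : ℤ[T;T⁻¹]) =
        -(T (a + 2) * (-T 2 - T (-2)) ^ k) - T (a - 2) * (-T 2 - T (-2)) ^ k := by
      rw [pow_succ', T_add, sub_eq_add_neg a 2, T_add]
      ring
    rw [e, sub_eq_add_neg, AddMonoidAlgebra.coeff_add, Finsupp.add_apply,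
      AddMonoidAlgebra.coeff_neg, Finsupp.neg_apply, AddMonoidAlgebra.coeff_neg,
      Finsupp.neg_apply, ih, ih]
    simp only [coef]
    ring

theorem coef_zero (k : ℕ) : ∀ a j : ℤ, 2 * (k : ℤ) < |j - a| → coef k a j = 0 := by
  induction k with
  | zero =>
    intro a j h
    unfold coef
    rw [if_neg]
    rintro rfl
    simp at h
  | succ k ih =>
    intro a j h
    unfold coef
    push_cast at h
    rw [ih (a + 2) j, ih (a - 2) j]
    · simp
    · rcases abs_cases (j - a) with ⟨h1, h2⟩ | ⟨h1, h2⟩ <;>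
      rcases abs_cases (j - (a - 2)) with ⟨h3, h4⟩ | ⟨h3, h4⟩ <;> omega
    · rcases abs_cases (j - a) with ⟨h1, h2⟩ | ⟨h1, h2⟩ <;>
      rcases abs_cases (j - (a + 2)) with ⟨h3, h4⟩ | ⟨h3, h4⟩ <;> omega

theorem Tb_small : ∀ p ∈ Tb, p.2.2.2 ≤ 5 ∧ 1 ≤ p.2.2.2 ∧ -8 ≤ wt p.1 ∧ wt p.1 ≤ 8 := by
  decide +kernel

theorem Tb_sum : ∀ j ∈ Finset.Icc (-16 : ℤ) 16,
    (Tb.map fun p => coef (p.2.2.2 - 1) (wt p.1) j).sum = if 12 = j then 1 else 0 := by
  decide +kernel

theorem list_coeff {α : Type} (l : List α) (F : α → ℤ[T;T⁻¹]) (j : ℤ) :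
    ((l.map F).sum).coeff j = (l.map fun p => (F p).coeff j).sum := by
  induction l with
  | nil => rfl
  | cons a l ih =>
    rw [List.map_cons, List.sum_cons, List.map_cons, List.sum_cons, ← ih,
      AddMonoidAlgebra.coeff_add, Finsupp.add_apply]

/-- the state as a number -/
def mask (s : Fin 8 → Bool) : ℕ := (List.finRange 8).foldr (fun c acc => (s c).toNat * 2 ^ (c : ℕ) + acc) 0

theorem mask_B : ∀ m : Fin 256, mask (B m) = m := by decide +kernel

theorem B_bij : Function.Bijective (fun m : Fin 256 => B m) := by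
  rw [Fintype.bijective_iff_injective_and_card]
  refine ⟨?_, by simp⟩
  intro a b hab
  have h := congrArg mask hab
  simp only [mask_B] at h
  exact Fin.ext h

theorem bracket_eq : bracket G w = T 12 := by
  have h1 : bracket G w = (Tb.map fun p => (T (wt p.1) * (-T 2 - T (-2)) ^ (p.2.2.2 - 1) :
      ℤ[T;T⁻¹])).sum := by
    unfold bracket
    rw [← B_bij.sum_comp (fun s => (T (weight w s) * (-T 2 - T (-2)) ^ (loops G s - 1) :
      ℤ[T;T⁻¹]))]
    rw [Fin.sum_univ_eq_sum_range (fun m => (T (weight w (B m)) *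
      (-T 2 - T (-2)) ^ (loops G (B m) - 1) : ℤ[T;T⁻¹])) 256]
    have h2 : (∑ m ∈ range 256, (T (weight w (B m)) *
        (-T 2 - T (-2)) ^ (loops G (B m) - 1) : ℤ[T;T⁻¹])) =
        ((List.range 256).map fun m => (T (weight w (B m)) *
        (-T 2 - T (-2)) ^ (loops G (B m) - 1) : ℤ[T;T⁻¹])).sum := rfl
    rw [h2, ← Tb_fst, List.map_map]
    congr 1
    refine List.map_congr_left fun p hp => ?_
    have h3 := L_tab p (Tb_ok p hp)
    have h4 : p.1 < 256 := by
      have : p.1 ∈ Tb.map (fun p => p.1) := List.mem_map_of_mem hp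
      rw [Tb_fst] at this
      exact List.mem_range.1 this
    have h5 := wt_ok ⟨p.1, h4⟩
    simp only at h5
    simp only [Function.comp]
    rw [loops_eq, h3, h5]
  rw [h1]
  ext j
  rw [list_coeff]
  simp only [coef_ok]
  rw [T_apply]
  by_cases hj : j ∈ Finset.Icc (-16 : ℤ) 16
  · exact Tb_sum j hj
  · rw [Finset.mem_Icc] at hj
    have h6 : ∀ p ∈ Tb, coef (p.2.2.2 - 1) (wt p.1) j = 0 := by
      intro p hp
      obtain ⟨k1, k2, k3, k4⟩ := Tb_small p hp
      apply coef_zero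
      have : ((p.2.2.2 - 1 : ℕ) : ℤ) ≤ 4 := by omega
      rcases abs_cases (j - wt p.1) with ⟨h7, h8⟩ | ⟨h7, h8⟩ <;> omega
    rw [List.map_congr_left h6, if_neg (by rintro rfl; omega)]
    simp

theorem fPoly_eq : fPoly G w = 1 := by
  have h1 : writhe w = 4 := by decide +kernel
  unfold fPoly
  rw [bracket_eq, h1, if_pos (by decide), one_mul, ← T_add]
  norm_num

theorem loops_eq_three : loops G (fun _ => true) = 3 := by
  have h1 : (fun _ => true) = B 255 := by
    funext c
    revert c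
    decide
  have h2 : ∃ p ∈ Tb, p.1 = 255 ∧ p.2.2.2 = 3 := by decide +kernel
  obtain ⟨p, hp, h3, h4⟩ := h2
  have h5 := L_tab p (Tb_ok p hp)
  rw [h3, h4] at h5
  rw [h1, loops_eq, h5]

end Pool.Agent.J6H4.SC.Ex
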