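import Pool.Agent.H832R2.JR.Moment

set_option autoImplicit false

/-!
# The number of closed curves of the states near the state of the oriented smoothings

The first change of a smoothing does not increase the number of the curves, every further one
increases it by at most one.
-/

namespace Pool.Agent.J6H4.SC

open Pool.Agent.H832R2.JR Function Finset

variable {N : ℕ}

/-- the passage left after entering at the passage `p`, if the crossings are passed through (`0`)
or smoothed in the oriented way -/
def tau (t : Fin N → Fin 3) (p : Fin N × Bool) : Fin N × Bool :=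
  if t p.1 = 0 then p else (p.1, !p.2)

theorem tau_fst (t : Fin N → Fin 3) (p : Fin N × Bool) : (tau t p).1 = p.1 := by
  unfold tau; split_ifs <;> rfl

theorem tau_inv (t : Fin N → Fin 3) : Function.Involutive (tau t) := by
  intro p
  unfold tau
  split_ifs <;> simp_all

/-- one step along an oriented curve -/
def rho (G : GaussWord N) (t : Fin N → Fin 3) : Equiv.Perm (Fin N × Bool) :=
  (next G).trans (Function.Involutive.toPerm (tau t) (tau_inv t))

theorem rho_apply (G : GaussWord N) (t : Fin N → Fin 3) (p : Fin N × Bool) :
    rho G t p = tau t (next G p) := rfl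

/-- the oriented curve which leaves the crossing `c` comes back to it -/
theorem comes_back (G : GaussWord N) (t : Fin N → Fin 3) (c : Fin N) (p : Fin N × Bool)
    (hp : p.1 = c) : ∃ k : ℕ, (next G ((rho G t ^ k) p)).1 = c := by
  have h1 : 0 < orderOf (rho G t) := orderOf_pos _
  refine ⟨orderOf (rho G t) - 1, ?_⟩
  have h2 : rho G t ((rho G t ^ (orderOf (rho G t) - 1)) p) = p := by
    rw [← Equiv.Perm.mul_apply, ← pow_succ', Nat.sub_add_cancel h1, pow_orderOf_eq_one]
    rfl
  rw [rho_apply] at h2
  rw [← tau_fst t, h2, hp]

theorem path_or (G : GaussWord N) (t : Fin N → Fin 3) (c : Fin N) (ht : ∀ d, d ≠ c → t d ≠ 2)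
    (p : Fin N × Bool) (hp : p.1 = c) : ∃ b : Bool,
      Quot.mk (gen (arcFun G) (smoothOff t c)) ((c, b), false) =
        Quot.mk (gen (arcFun G) (smoothOff t c)) (p, true) := by
  classical
  have hex := comes_back G t c p hp
  set k := Nat.find hex with hk
  have hkc : (next G ((rho G t ^ k) p)).1 = c := Nat.find_spec hex
  have hmin : ∀ j, j < k → (next G ((rho G t ^ j) p)).1 ≠ c := fun j hj => Nat.find_min hex hj
  have chain : ∀ j, j ≤ k → Quot.mk (gen (arcFun G) (smoothOff t c)) ((rho G t ^ j) p, true) =
      Quot.mk (gen (arcFun G) (smoothOff t c)) (p, true) := by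
    intro j
    induction j with
    | zero => intro _; rfl
    | succ j ih =>
      intro hj
      rw [← ih (by omega)]
      have hne := hmin j (by omega)
      have e1 : (rho G t ^ (j + 1)) p = tau t (next G ((rho G t ^ j) p)) := by
        rw [pow_succ', Equiv.Perm.mul_apply, rho_apply]
      have e2 : smoothOff t c (next G ((rho G t ^ j) p), false) =
          (tau t (next G ((rho G t ^ j) p)), true) := by
        unfold smoothOff
        rw [if_neg hne]
        unfold smooth tau
        have h3 := ht _ hne
        by_cases h0 : t (next G ((rho G t ^ j) p)).1 = 0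
        · simp [h0]
        · have h4 : t (next G ((rho G t ^ j) p)).1 = 1 := by
            generalize t (next G ((rho G t ^ j) p)).1 = q at h0 h3
            revert h0 h3
            revert q
            decide
          simp [h4]
      rw [e1, ← e2]
      have s1 : Quot.mk (gen (arcFun G) (smoothOff t c)) ((rho G t ^ j) p, true) =
          Quot.mk (gen (arcFun G) (smoothOff t c)) (next G ((rho G t ^ j) p), false) :=
        Quot.sound (Or.inl rfl)
      have s2 : Quot.mk (gen (arcFun G) (smoothOff t c)) (next G ((rho G t ^ j) p), false) =
          Quot.mk (gen (arcFun G) (smoothOff t c))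
            (smoothOff t c (next G ((rho G t ^ j) p), false)) :=
        Quot.sound (Or.inr rfl)
      exact (s1.trans s2).symm
  refine ⟨(next G ((rho G t ^ k) p)).2, ?_⟩
  have e : (next G ((rho G t ^ k) p)) = (c, (next G ((rho G t ^ k) p)).2) :=
    Prod.ext hkc rfl
  rw [← e, ← chain k le_rfl]
  have s1 : Quot.mk (gen (arcFun G) (smoothOff t c)) ((rho G t ^ k) p, true) =
      Quot.mk (gen (arcFun G) (smoothOff t c)) (next G ((rho G t ^ k) p), false) :=
    Quot.sound (Or.inl rfl)
  exact s1.symm

/-- changing one smoothing of a state which agrees with the orientation does not increase the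
number of the curves -/
theorem first_change (G : GaussWord N) (t : Fin N → Fin 3) (c : Fin N)
    (ht : ∀ d, d ≠ c → t d ≠ 2) : L G (update t c 2) ≤ L G (update t c 1) := by
  classical
  set r2 := gen (arcFun G) (smooth (update t c 2)) with hr2
  set r1 := gen (arcFun G) (smooth (update t c 1)) with hr1
  have hoff : ∀ x y : Half N, gen (arcFun G) (smoothOff t c) x y → Quot.mk r2 x = Quot.mk r2 y := by
    rintro x y (rfl | rfl)
    · exact Quot.sound (Or.inl rfl)
    · unfold smoothOff
      split_ifs with h
      · rfl
      · refine Quot.sound (Or.inr ?_)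
        unfold smooth
        rw [update_of_ne h]
  have hlift : ∀ x y : Half N, Quot.mk (gen (arcFun G) (smoothOff t c)) x =
      Quot.mk (gen (arcFun G) (smoothOff t c)) y → Quot.mk r2 x = Quot.mk r2 y := by
    intro x y h
    exact congrArg (Quot.lift (Quot.mk r2) hoff) h
  have h2 : ∀ b e, Quot.mk r2 ((c, b), e) = Quot.mk r2 ((c, !b), e) := by
    intro b e
    exact Quot.sound (Or.inr (by simp [smooth]))
  have h3 : ∀ b e, Quot.mk r2 ((c, b), e) = Quot.mk r2 ((c, false), e) := by
    intro b e
    cases b
    · rfl
    · exact h2 true e
  have h4 : Quot.mk r2 ((c, false), true) = Quot.mk r2 ((c, false), false) := by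
    obtain ⟨b, hb⟩ := path_or G t c ht (c, false) rfl
    rw [← h3 b false]
    exact (hlift _ _ hb).symm
  have h5 : ∀ b e, Quot.mk r2 ((c, b), e) = Quot.mk r2 ((c, false), false) := by
    intro b e
    rw [h3 b e]
    cases e
    · rfl
    · exact h4
  have h6 : ∀ x y : Half N, r1 x y → Quot.mk r2 x = Quot.mk r2 y := by
    rintro x y (rfl | rfl)
    · exact Quot.sound (Or.inl rfl)
    · rcases x with ⟨⟨d, b⟩, e⟩
      by_cases hd : d = c
      · subst hd
        have : smooth (update t d 1) ((d, b), e) = ((d, !b), !e) := by simp [smooth]
        rw [this, h5 b e, h5 (!b) (!e)]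
      · refine Quot.sound (Or.inr ?_)
        unfold smooth
        simp only [update_of_ne hd]
  have hfin : Finite (Quot r1) := Quot.finite _
  refine Nat.card_le_card_of_surjective (Quot.lift (Quot.mk r2) h6) ?_
  rintro ⟨x⟩
  exact ⟨Quot.mk r1 x, rfl⟩

/-- oriented smoothings outside of `F`, unoriented ones in `F` -/
def tU (F : Finset (Fin N)) (c : Fin N) : Fin 3 := if c ∈ F then 2 else 1

theorem bound (G : GaussWord N) (F : Finset (Fin N)) :
    F.Nonempty → L G (tU F) + 1 ≤ L G (tU ∅) + F.card := by
  classical
  induction F using Finset.induction_on with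
  | empty => intro h; exact absurd h (by simp)
  | insert c F hc ih =>
    intro _
    have e1 : tU F = update (tU F) c 1 := by
      rw [eq_comm, update_eq_self_iff]
      simp [tU, hc]
    have e2 : tU (insert c F) = update (tU F) c 2 := by
      funext d
      by_cases hd : d = c
      · subst hd; simp [tU]
      · rw [update_of_ne hd]; simp [tU, hd]
    rw [card_insert_of_notMem hc]
    rcases F.eq_empty_or_nonempty with rfl | hF
    · have h := first_change G (tU (∅ : Finset (Fin N))) c (by intro d _; simp [tU])
      rw [← e1, ← e2] at h
      simp only [card_empty]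
      omega
    · have h := ih hF
      obtain ⟨n, hn⟩ := three_term G (tU F) c
      rw [← e1, ← e2] at hn
      omega

/-- oriented smoothings in `R`, the other crossings are passed through -/
def tP (R : Finset (Fin N)) (c : Fin N) : Fin 3 := if c ∈ R then 1 else 0

theorem parity (G : GaussWord N) (i : Fin N) (R : Finset (Fin N)) :
    (L G (tP R) + R.card) % 2 = 1 := by
  classical
  induction R using Finset.induction_on with
  | empty =>
    have : tP (∅ : Finset (Fin N)) = fun _ => 0 := by funext c; simp [tP]
    rw [this, L_zero G i]
    simp
  | insert c R hc ih =>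
    have e0 : tP R = update (tP R) c 0 := by
      rw [eq_comm, update_eq_self_iff]
      simp [tP, hc]
    have e1 : tP (insert c R) = update (tP R) c 1 := by
      funext d
      by_cases hd : d = c
      · subst hd; simp [tP]
      · rw [update_of_ne hd]; simp [tP, hd]
    obtain ⟨n, hn⟩ := three_term G (tP R) c
    have h := first_change G (tP R) c (by
      intro d _
      unfold tP
      split_ifs <;> decide)
    rw [← e0, ← e1] at hn
    rw [← e1] at h
    rw [card_insert_of_notMem hc]
    omega

theorem tri_eq (s : Fin N → Bool) : tri s = tU (univ.filter fun c => s c = false) := by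
  funext c
  unfold tri tU
  cases h : s c <;> simp [h]

theorem loops_true (G : GaussWord N) : loops G (fun _ => true) = L G (tU ∅) := by
  rw [loops_eq]
  congr 1

theorem loops_bound (G : GaussWord N) (s : Fin N → Bool)
    (hs : (univ.filter fun c => s c = false).Nonempty) :
    loops G s + 1 ≤ loops G (fun _ => true) + (univ.filter fun c => s c = false).card := by
  rw [loops_eq, loops_true, tri_eq]
  exact bound G _ hs

theorem loops_parity (G : GaussWord N) (i : Fin N) :
    (loops G (fun _ => true) + N) % 2 = 1 := by
  have h := parity G i univ
  have e : tP (univ : Finset (Fin N)) = tri (fun _ => true) := by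
    funext c
    simp [tP, tri]
  rw [e, ← loops_eq, card_univ, Fintype.card_fin] at h
  exact h

theorem loops_le (G : GaussWord N) : loops G (fun _ => true) ≤ N + 1 := by
  classical
  rcases Nat.eq_zero_or_pos N with rfl | hN
  · unfold loops
    have : IsEmpty (Half 0) := ⟨fun x => x.1.1.elim0⟩
    have : IsEmpty (Quot (Joined G fun _ => true)) :=
      ⟨fun q => by induction q using Quot.ind with | mk x => exact isEmptyElim x⟩
    rw [Nat.card_of_isEmpty]
    omega
  · have key : ∀ R : Finset (Fin N), L G (tP R) ≤ R.card + 1 := by
      intro R
      induction R using Finset.induction_on with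
      | empty =>
        have : tP (∅ : Finset (Fin N)) = fun _ => 0 := by funext c; simp [tP]
        rw [this, L_zero G ⟨0, hN⟩]
        simp
      | insert c R hc ih =>
        have e0 : tP R = update (tP R) c 0 := by
          rw [eq_comm, update_eq_self_iff]
          simp [tP, hc]
        have e1 : tP (insert c R) = update (tP R) c 1 := by
          funext d
          by_cases hd : d = c
          · subst hd; simp [tP]
          · rw [update_of_ne hd]; simp [tP, hd]
        obtain ⟨n, hn⟩ := three_term G (tP R) c
        rw [← e0, ← e1] at hn
        rw [card_insert_of_notMem hc]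
        omega
    have h := key univ
    have e : tP (univ : Finset (Fin N)) = tri (fun _ => true) := by
      funext c
      simp [tP, tri]
    rw [e, ← loops_eq, card_univ, Fintype.card_fin] at h
    exact h

end Pool.Agent.J6H4.SC
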